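import Pool.Agent.N659.HB.Stm8

set_option autoImplicit false

/-!
Project SD: the level transform far from the support, `S_LQ`.
-/

namespace Pool.Agent.N196.SD.LQ

open MeasureTheory Filter Pool.Agent.W792.LL Pool.Agent.W792.WA Pool.Agent.N659.HB
open scoped Topology ENNReal

noncomputable section

theorem cont_psi (ψ : C(UnitAddCircle, ℝ)) : Continuous fun φ : ℝ => ψ (φ : UnitAddCircle) :=
  ψ.continuous.comp (AddCircle.continuous_mk' 1)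

theorem prob_Ioc : IsProbabilityMeasure (volume.restrict (Set.Ioc (0 : ℝ) 1)) := ⟨by simp⟩

theorem lev_prob (ψ : C(UnitAddCircle, ℝ)) (l : ℝ) : IsProbabilityMeasure (lev ψ l) := by
  have := prob_Ioc
  exact Measure.isProbabilityMeasure_map ((cont_psi ψ).const_mul l).measurable.aemeasurable

theorem lev_supp {ψ : C(UnitAddCircle, ℝ)} (hψ : IsSemi ψ) {r : ℝ} (hr : 0 < r) :
    ∀ᵐ a ∂(lev ψ r), |a| ≤ r := by
  unfold lev
  rw [ae_map_iff ((cont_psi ψ).const_mul r).measurable.aemeasurable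
    (measurableSet_le continuous_abs.measurable measurable_const)]
  refine ae_of_all _ fun φ => ?_
  rw [abs_mul, abs_of_pos hr]
  have := hψ.bound (φ : UnitAddCircle)
  nlinarith

theorem conv_supp {μ ν : Measure ℝ} [IsProbabilityMeasure μ] [IsProbabilityMeasure ν] {a b : ℝ}
    (hμ : ∀ᵐ x ∂μ, |x| ≤ a) (hν : ∀ᵐ x ∂ν, |x| ≤ b) : ∀ᵐ x ∂(μ.conv ν), |x| ≤ a + b := by
  unfold Measure.conv
  rw [ae_map_iff (by fun_prop) (measurableSet_le continuous_abs.measurable measurable_const)]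
  have h1 : ∀ᵐ p ∂(μ.prod ν), |p.1| ≤ a := Measure.quasiMeasurePreserving_fst.ae hμ
  have h2 : ∀ᵐ p ∂(μ.prod ν), |p.2| ≤ b := Measure.quasiMeasurePreserving_snd.ae hν
  filter_upwards [h1, h2] with p h3 h4
  exact (abs_add_le _ _).trans (add_le_add h3 h4)

section

variable {ρ : Measure ℝ} [IsProbabilityMeasure ρ] {R c₁ : ℝ}

theorem low {t : ℂ} (hc : 0 < c₁) (ht : t.im ≤ -c₁) (a : ℝ) : c₁ ≤ ‖t + (a : ℂ)‖ := by
  have h := Complex.abs_im_le_norm (t + (a : ℂ))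
  have e : (t + (a : ℂ)).im = t.im := by simp
  rw [e, abs_of_nonpos (by linarith)] at h
  linarith

theorem low0 {t : ℂ} (hc : 0 < c₁) (ht : t.im ≤ -c₁) : c₁ ≤ ‖t‖ := by
  have := low hc ht 0
  simpa using this

theorem ne {t : ℂ} (hc : 0 < c₁) (ht : t.im ≤ -c₁) (a : ℝ) : t + (a : ℂ) ≠ 0 := by
  have := low hc ht a
  exact norm_pos_iff.1 (hc.trans_le this)

theorem f_cont {t : ℂ} (hc : 0 < c₁) (ht : t.im ≤ -c₁) :
    Continuous fun a : ℝ => 1 / (t + (a : ℂ)) :=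
  continuous_const.div (by fun_prop) (ne hc ht)

theorem f_bound {t : ℂ} (hc : 0 < c₁) (ht : t.im ≤ -c₁) (a : ℝ) :
    ‖1 / (t + (a : ℂ))‖ ≤ 1 / c₁ := by
  rw [norm_div, norm_one]
  exact one_div_le_one_div_of_le hc (low hc ht a)

theorem f_int {t : ℂ} (hc : 0 < c₁) (ht : t.im ≤ -c₁) :
    Integrable (fun a : ℝ => 1 / (t + (a : ℂ))) ρ :=
  Integrable.of_bound (f_cont hc ht).aestronglyMeasurable (1 / c₁) (ae_of_all _ (f_bound hc ht))

/-- the centred function -/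
def gg (t : ℂ) (a : ℝ) : ℂ := 1 / (t + (a : ℂ)) - 1 / t

theorem g_cont {t : ℂ} (hc : 0 < c₁) (ht : t.im ≤ -c₁) : Continuous (gg t) :=
  (f_cont hc ht).sub continuous_const

theorem g_int {t : ℂ} (hc : 0 < c₁) (ht : t.im ≤ -c₁) : Integrable (gg t) ρ :=
  (f_int hc ht).sub (integrable_const _)

theorem g_bound {t : ℂ} (hc : 0 < c₁) (ht : t.im ≤ -c₁) {a : ℝ} (ha : |a| ≤ R) :
    ‖gg t a‖ ≤ R / (c₁ * ‖t‖) := by
  have h1 := low hc ht a
  have h2 := low0 hc ht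
  have h3 := ne hc ht a
  have h4 : t ≠ 0 := norm_pos_iff.1 (hc.trans_le h2)
  have e : gg t a = -(a : ℂ) / ((t + (a : ℂ)) * t) := by
    unfold gg
    field_simp
    ring
  rw [e, norm_div, norm_neg, norm_mul, Complex.norm_real, Real.norm_eq_abs]
  have h5 : 0 < ‖t‖ := hc.trans_le h2
  exact div_le_div₀ ((abs_nonneg a).trans ha) ha (by positivity)
    (mul_le_mul_of_nonneg_right h1 h5.le)

theorem g_mean {t : ℂ} (hc : 0 < c₁) (ht : t.im ≤ -c₁) : ∫ a, gg t a ∂ρ = bet ρ t - 1 / t := by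
  unfold gg bet
  rw [integral_sub (f_int hc ht) (integrable_const _)]
  simp

theorem b_bound {t : ℂ} (hc : 0 < c₁) (ht : t.im ≤ -c₁) (hR : ∀ᵐ a ∂ρ, |a| ≤ R) :
    ‖bet ρ t - 1 / t‖ ≤ R / (c₁ * ‖t‖) := by
  rw [← g_mean hc ht]
  have h := norm_integral_le_of_norm_le_const (μ := ρ) (f := gg t) (C := R / (c₁ * ‖t‖)) (by
    filter_upwards [hR] with a ha
    exact g_bound hc ht ha)
  simpa using h

theorem tb_bound {t : ℂ} (hc : 0 < c₁) (ht : t.im ≤ -c₁) (hR : ∀ᵐ a ∂ρ, |a| ≤ R) :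
    ‖1 - t * bet ρ t‖ ≤ R / c₁ := by
  have h2 := low0 hc ht
  have h5 : 0 < ‖t‖ := hc.trans_le h2
  have h4 : t ≠ 0 := norm_pos_iff.1 h5
  have e : 1 - t * bet ρ t = -(t * (bet ρ t - 1 / t)) := by
    field_simp
    ring
  rw [e, norm_neg, norm_mul]
  calc ‖t‖ * ‖bet ρ t - 1 / t‖ ≤ ‖t‖ * (R / (c₁ * ‖t‖)) :=
        mul_le_mul_of_nonneg_left (b_bound hc ht hR) h5.le
    _ = R / c₁ := by
      field_simp

theorem b_low {t : ℂ} (hc : 0 < c₁) (ht : t.im ≤ -c₁) (hR : ∀ᵐ a ∂ρ, |a| ≤ R)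
    (h2 : 2 * R ≤ c₁) : 1 / 2 ≤ ‖t‖ * ‖bet ρ t‖ := by
  rw [← norm_mul]
  have h1 := tb_bound hc ht hR
  have h3 : R / c₁ ≤ 1 / 2 := by
    rw [div_le_iff₀ hc]
    linarith
  have h4 : (1 : ℝ) ≤ ‖1 - t * bet ρ t‖ + ‖t * bet ρ t‖ := by
    have := norm_add_le (1 - t * bet ρ t) (t * bet ρ t)
    rw [sub_add_cancel, norm_one] at this
    exact this
  linarith

theorem diff {t t' : ℂ} (hc : 0 < c₁) (ht : t.im ≤ -c₁) (ht' : t'.im ≤ -c₁) :
    bet ρ t' - bet ρ t = (t - t') * (∫ a, gg t a * gg t' a ∂ρ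
      - (bet ρ t - 1 / t) * (bet ρ t' - 1 / t') + bet ρ t * bet ρ t') := by
  have h4 : t ≠ 0 := norm_pos_iff.1 (hc.trans_le (low0 hc ht))
  have h4' : t' ≠ 0 := norm_pos_iff.1 (hc.trans_le (low0 hc ht'))
  have i1 : Integrable (fun a => gg t a * gg t' a) ρ := by
    refine (g_int hc ht').bdd_mul (g_cont hc ht).aestronglyMeasurable (c := 1 / c₁ + ‖1 / t‖)
      (ae_of_all _ fun a => ?_)
    exact (norm_sub_le _ _).trans (add_le_add (f_bound hc ht a) le_rfl)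
  have i2 : Integrable (gg t) ρ := g_int hc ht
  have i3 : Integrable (gg t') ρ := g_int hc ht'
  have e1 : ∀ a : ℝ, 1 / (t' + (a : ℂ)) - 1 / (t + (a : ℂ)) =
      (t - t') * (gg t a * gg t' a + 1 / t' * gg t a + 1 / t * gg t' a + 1 / t * (1 / t')) := by
    intro a
    have h3 := ne hc ht a
    have h3' := ne hc ht' a
    have : gg t a * gg t' a + 1 / t' * gg t a + 1 / t * gg t' a + 1 / t * (1 / t') =
        1 / (t + (a : ℂ)) * (1 / (t' + (a : ℂ))) := by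
      unfold gg
      ring
    rw [this]
    field_simp
    ring
  have e2 : bet ρ t' - bet ρ t = ∫ a : ℝ, (1 / (t' + (a : ℂ)) - 1 / (t + (a : ℂ))) ∂ρ := by
    rw [integral_sub (f_int hc ht') (f_int hc ht)]
    rfl
  have j1 : Integrable (fun a => 1 / t' * gg t a) ρ := i2.const_mul _
  have j2 : Integrable (fun a => 1 / t * gg t' a) ρ := i3.const_mul _
  have l1 : Integrable (fun a => gg t a * gg t' a + 1 / t' * gg t a) ρ := i1.add j1
  have l2 : Integrable (fun a => gg t a * gg t' a + 1 / t' * gg t a + 1 / t * gg t' a) ρ :=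
    l1.add j2
  rw [e2]
  simp only [e1]
  rw [integral_const_mul, integral_add l2 (integrable_const _),
    integral_add l1 j2, integral_add i1 j1, integral_const_mul, integral_const_mul,
    g_mean hc ht, g_mean hc ht', integral_const, probReal_univ, one_smul]
  ring

theorem cov_bound {t t' : ℂ} (hc : 0 < c₁) (ht : t.im ≤ -c₁) (ht' : t'.im ≤ -c₁)
    (hR : ∀ᵐ a ∂ρ, |a| ≤ R) (hR0 : 0 ≤ R) :
    ‖∫ a, gg t a * gg t' a ∂ρ - (bet ρ t - 1 / t) * (bet ρ t' - 1 / t')‖ ≤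
      2 * (R / (c₁ * ‖t‖) * (R / (c₁ * ‖t'‖))) := by
  have h1 : ‖∫ a, gg t a * gg t' a ∂ρ‖ ≤ R / (c₁ * ‖t‖) * (R / (c₁ * ‖t'‖)) := by
    have h := norm_integral_le_of_norm_le_const (μ := ρ) (f := fun a => gg t a * gg t' a)
      (C := R / (c₁ * ‖t‖) * (R / (c₁ * ‖t'‖))) (by
      filter_upwards [hR] with a ha
      rw [norm_mul]
      exact mul_le_mul (g_bound hc ht ha) (g_bound hc ht' ha) (norm_nonneg _) (by positivity))
    simpa using h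
  have h2 : ‖(bet ρ t - 1 / t) * (bet ρ t' - 1 / t')‖ ≤
      R / (c₁ * ‖t‖) * (R / (c₁ * ‖t'‖)) := by
    rw [norm_mul]
    exact mul_le_mul (b_bound hc ht hR) (b_bound hc ht' hR) (norm_nonneg _) (by positivity)
  calc _ ≤ _ := norm_sub_le _ _
    _ ≤ _ := add_le_add h1 h2
    _ = _ := by ring

theorem lip {t t' : ℂ} (hc : 0 < c₁) (ht : t.im ≤ -c₁) (ht' : t'.im ≤ -c₁)
    (hR : ∀ᵐ a ∂ρ, |a| ≤ R) (hR0 : 0 ≤ R) (h2 : 2 * R ≤ c₁) :
    ‖(1 / bet ρ t - t) - (1 / bet ρ t' - t')‖ ≤ 8 * (R / c₁) ^ 2 * ‖t - t'‖ := by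
  have k1 := b_low hc ht hR h2
  have k2 := b_low hc ht' hR h2
  have n1 : 0 < ‖t‖ := hc.trans_le (low0 hc ht)
  have n2 : 0 < ‖t'‖ := hc.trans_le (low0 hc ht')
  have p1 : 0 < ‖bet ρ t‖ := by
    by_contra h
    push Not at h
    have : ‖t‖ * ‖bet ρ t‖ ≤ 0 := mul_nonpos_of_nonneg_of_nonpos n1.le h
    linarith
  have p2 : 0 < ‖bet ρ t'‖ := by
    by_contra h
    push Not at h
    have : ‖t'‖ * ‖bet ρ t'‖ ≤ 0 := mul_nonpos_of_nonneg_of_nonpos n2.le h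
    linarith
  have z1 : bet ρ t ≠ 0 := norm_pos_iff.1 p1
  have z2 : bet ρ t' ≠ 0 := norm_pos_iff.1 p2
  have hd := diff (ρ := ρ) hc ht ht'
  have hcov := cov_bound hc ht ht' hR hR0
  set Cv := ∫ a, gg t a * gg t' a ∂ρ - (bet ρ t - 1 / t) * (bet ρ t' - 1 / t') with hCv
  have e : (1 / bet ρ t - t) - (1 / bet ρ t' - t') = (t - t') * Cv / (bet ρ t * bet ρ t') := by
    have e1 : (1 / bet ρ t - t) - (1 / bet ρ t' - t') =
        ((bet ρ t' - bet ρ t) - (t - t') * (bet ρ t * bet ρ t')) / (bet ρ t * bet ρ t') := by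
      field_simp
      ring
    rw [e1, hd]
    ring
  rw [e, norm_div, norm_mul, norm_mul, div_le_iff₀ (by positivity)]
  have k3 : 1 / 4 ≤ ‖t‖ * ‖bet ρ t‖ * (‖t'‖ * ‖bet ρ t'‖) := by
    have := mul_le_mul k1 k2 (by norm_num) (by positivity)
    linarith
  have k4 : 2 * (R / (c₁ * ‖t‖) * (R / (c₁ * ‖t'‖))) ≤
      8 * (R / c₁) ^ 2 * (‖bet ρ t‖ * ‖bet ρ t'‖) := by
    have e2 : 2 * (R / (c₁ * ‖t‖) * (R / (c₁ * ‖t'‖))) = 2 * (R / c₁) ^ 2 / (‖t‖ * ‖t'‖) := by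
      field_simp
    rw [e2, div_le_iff₀ (by positivity)]
    have e3 : 8 * (R / c₁) ^ 2 * (‖bet ρ t‖ * ‖bet ρ t'‖) * (‖t‖ * ‖t'‖) =
        8 * (R / c₁) ^ 2 * (‖t‖ * ‖bet ρ t‖ * (‖t'‖ * ‖bet ρ t'‖)) := by ring
    rw [e3]
    have h0 : 0 ≤ 8 * (R / c₁) ^ 2 := by positivity
    have := mul_le_mul_of_nonneg_left k3 h0
    linarith
  calc ‖t - t'‖ * ‖Cv‖ ≤ ‖t - t'‖ * (8 * (R / c₁) ^ 2 * (‖bet ρ t‖ * ‖bet ρ t'‖)) :=
        mul_le_mul_of_nonneg_left (hcov.trans k4) (norm_nonneg _)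
    _ = _ := by ring

end

/-- `S_LQ` -/
theorem main : S_LV → S_LQ := by
  intro hLV ψ hψ C₁ c₁ hC₁ hc₁
  refine ⟨9 * C₁ / (4 * c₁) + 81 / (8 * c₁ ^ 2), c₁ / (16 * C₁ ^ 2), c₁ / 8, by positivity,
    by positivity, by positivity, ?_⟩
  intro r ρ' _ hr hr0 hρ t ht htC
  have := lev_prob ψ r
  have hsupp : ∀ᵐ a ∂ρ', |a| ≤ r / 8 := by
    have h4 : ∀ᵐ a ∂ρ', a ∈ Set.Icc (-(r / 8)) (r / 8) := by
      rw [ae_iff]
      exact hρ
    filter_upwards [h4] with a ha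
    exact abs_le.2 ha
  have hR : ∀ᵐ a ∂((lev ψ r).conv ρ'), |a| ≤ r + r / 8 := conv_supp (lev_supp hψ hr) hsupp
  have hR2 : 2 * (r + r / 8) ≤ c₁ := by linarith
  have hR0 : 0 ≤ r + r / 8 := by positivity
  obtain ⟨-, -, -, -, hlv, -⟩ := hLV ψ hψ r ρ' hr hρ t (by linarith)
  set ρ := (lev ψ r).conv ρ' with hρdef
  have hpos : ∀ t : ℂ, t.im ≤ -c₁ → 0 < ‖bet ρ t‖ := by
    intro t ht
    have k1 := b_low hc₁ ht hR hR2
    have n1 : 0 < ‖t‖ := hc₁.trans_le (low0 hc₁ ht)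
    by_contra h
    push Not at h
    have : ‖t‖ * ‖bet ρ t‖ ≤ 0 := mul_nonpos_of_nonneg_of_nonpos n1.le h
    linarith
  have hb0 := hpos t ht
  have hne : bet ρ t ≠ 0 := norm_pos_iff.1 hb0
  have k1 := b_low hc₁ ht hR hR2
  have n1 : 0 < ‖t‖ := hc₁.trans_le (low0 hc₁ ht)
  have hblow : 1 / (2 * C₁) ≤ ‖bet ρ t‖ := by
    rw [div_le_iff₀ (by positivity)]
    have : ‖t‖ * ‖bet ρ t‖ ≤ C₁ * ‖bet ρ t‖ := mul_le_mul_of_nonneg_right htC hb0.le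
    linarith
  refine ⟨hne, ?_, ?_, ?_⟩
  · have e : 1 / bet ρ t - t = (1 - t * bet ρ t) / bet ρ t := by
      field_simp
    rw [e, norm_div, div_le_iff₀ hb0]
    have h1 := tb_bound hc₁ ht hR
    have h2 : (r + r / 8) / c₁ ≤ 9 * C₁ / (4 * c₁) * r * ‖bet ρ t‖ := by
      have h3 : 9 * C₁ / (4 * c₁) * r * (1 / (2 * C₁)) ≤ 9 * C₁ / (4 * c₁) * r * ‖bet ρ t‖ :=
        mul_le_mul_of_nonneg_left hblow (by positivity)
      have h4 : 9 * C₁ / (4 * c₁) * r * (1 / (2 * C₁)) = (r + r / 8) / c₁ := by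
        field_simp
        ring
      linarith
    have h3 : 9 * C₁ / (4 * c₁) * r * ‖bet ρ t‖ ≤
        (9 * C₁ / (4 * c₁) + 81 / (8 * c₁ ^ 2)) * r * ‖bet ρ t‖ := by
      have : 0 ≤ 81 / (8 * c₁ ^ 2) * r * ‖bet ρ t‖ := by positivity
      nlinarith
    linarith
  · rw [Complex.sub_im]
    have h1 : (1 / (2 * C₁)) ^ 2 ≤ ‖bet ρ t‖ ^ 2 := pow_le_pow_left₀ (by positivity) hblow 2
    have h2 : c₁ * (r ^ 2 / 4 * (1 / (2 * C₁)) ^ 2) ≤ (-t.im) * (r ^ 2 / 4 * ‖bet ρ t‖ ^ 2) := by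
      apply mul_le_mul (by linarith) _ (by positivity) (by linarith)
      exact mul_le_mul_of_nonneg_left h1 (by positivity)
    have h3 : c₁ * (r ^ 2 / 4 * (1 / (2 * C₁)) ^ 2) = c₁ / (16 * C₁ ^ 2) * r ^ 2 := by
      field_simp
      ring
    nlinarith
  · intro t' ht' _
    have h1 := lip hc₁ ht ht' hR hR0 hR2
    have h2 : 8 * ((r + r / 8) / c₁) ^ 2 ≤ (9 * C₁ / (4 * c₁) + 81 / (8 * c₁ ^ 2)) * r ^ 2 := by
      have e : 8 * ((r + r / 8) / c₁) ^ 2 = 81 / (8 * c₁ ^ 2) * r ^ 2 := by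
        field_simp
        ring
      rw [e]
      have : 0 ≤ 9 * C₁ / (4 * c₁) * r ^ 2 := by positivity
      nlinarith
    exact h1.trans (mul_le_mul_of_nonneg_right h2 (norm_nonneg _))

end

end Pool.Agent.N196.SD.LQ
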